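import Pool.Agent.Y685.SY.Stm

/-! Project SY (helper685), part PU: finite partition of unity, in coordinates. -/

set_option autoImplicit false
set_option maxSynthPendingDepth 3

open scoped Manifold ContDiff Topology
open Set

namespace Pool.Agent.Y274.SY

open Pool.Agent.Y685.SY

theorem t_PU (E : Type) [NormedAddCommGroup E] [InnerProductSpace ℝ E] [FiniteDimensional ℝ E]
    (M : Type) [TopologicalSpace M] [ChartedSpace E M] [IsManifold 𝓘(ℝ, E) ∞ M] : S_PU E M := by
  intro _ _
  classical
  obtain ⟨t, ht⟩ := (isCompact_univ (X := M)).elim_finite_subcover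
    (fun p : M => (chartAt E p).source) (fun p => (chartAt E p).open_source)
    (fun p _ => mem_iUnion.2 ⟨p, mem_chart_source E p⟩)
  obtain ⟨P, hP⟩ : ∃ P : Fin t.card → M, ∀ p ∈ t, ∃ i, P i = p :=
    ⟨fun i => (t.equivFin.symm i : M), fun p hp => ⟨t.equivFin ⟨p, hp⟩, by simp⟩⟩
  have hcov : (univ : Set M) ⊆ ⋃ i : Fin t.card, (chartAt E (P i)).source := by
    intro x hx
    obtain ⟨p, hp, hxp⟩ := mem_iUnion₂.1 (ht hx)
    obtain ⟨i, rfl⟩ := hP p hp
    exact mem_iUnion.2 ⟨i, hxp⟩
  obtain ⟨f, hf⟩ := SmoothPartitionOfUnity.exists_isSubordinate 𝓘(ℝ, E) isClosed_univ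
    (fun i : Fin t.card => (chartAt E (P i)).source) (fun i => (chartAt E (P i)).open_source) hcov
  have hTsub : ∀ i, (chartAt E (P i)) '' tsupport (f i) ⊆ (chartAt E (P i)).target := by
    rintro i _ ⟨x, hx, rfl⟩
    exact (chartAt E (P i)).map_source (hf i hx)
  have hTc : ∀ i, IsCompact ((chartAt E (P i)) '' tsupport (f i)) := fun i =>
    (isClosed_tsupport (f i)).isCompact.image_of_continuousOn
      ((chartAt E (P i)).continuousOn.mono (hf i))
  let χ : Fin t.card → E → ℝ := fun i y =>
    if y ∈ (chartAt E (P i)).target then f i ((chartAt E (P i)).symm y) else 0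
  have hsupp : ∀ i, Function.support (χ i) ⊆ (chartAt E (P i)) '' tsupport (f i) := by
    intro i y hy
    by_cases h : y ∈ (chartAt E (P i)).target
    · have h1 : χ i y = f i ((chartAt E (P i)).symm y) := if_pos h
      rw [Function.mem_support, h1] at hy
      exact ⟨(chartAt E (P i)).symm y, subset_tsupport _ hy, (chartAt E (P i)).right_inv h⟩
    · exact absurd (if_neg h) hy
  have htsupp : ∀ i, tsupport (χ i) ⊆ (chartAt E (P i)) '' tsupport (f i) := fun i =>
    closure_minimal (hsupp i) (hTc i).isClosed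
  refine ⟨t.card, fun i => chartAt E (P i), χ, fun i => chart_mem_atlas E (P i), fun i => ?_,
    fun i => HasCompactSupport.of_support_subset_isCompact (hTc i) (hsupp i),
    fun i => (htsupp i).trans (hTsub i), fun i y => ?_, fun p => ?_⟩
  · rw [contDiff_iff_contDiffAt]
    intro y
    by_cases h : y ∈ (chartAt E (P i)).target
    · have h1 : χ i =ᶠ[𝓝 y] fun z => f i ((chartAt E (P i)).symm z) := by
        filter_upwards [(chartAt E (P i)).open_target.mem_nhds h] with z hz
        exact if_pos hz
      have h2 : ContMDiffAt 𝓘(ℝ, E) 𝓘(ℝ, E) ∞ (chartAt E (P i)).symm y :=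
        contMDiffOn_chart_symm.contMDiffAt ((chartAt E (P i)).open_target.mem_nhds h)
      have h3 : ContMDiffAt 𝓘(ℝ, E) 𝓘(ℝ, ℝ) ∞ (fun z => f i ((chartAt E (P i)).symm z)) y :=
        ((f i).contMDiff.contMDiffAt).comp y h2
      exact h3.contDiffAt.congr_of_eventuallyEq h1
    · have h1 : χ i =ᶠ[𝓝 y] fun _ => 0 := by
        have h2 : y ∉ (chartAt E (P i)) '' tsupport (f i) := fun h' => h (hTsub i h')
        filter_upwards [(hTc i).isClosed.isOpen_compl.mem_nhds h2] with z hz
        by_contra hne
        exact hz (hsupp i hne)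
      exact contDiffAt_const.congr_of_eventuallyEq h1
  · show 0 ≤ (if y ∈ (chartAt E (P i)).target then f i ((chartAt E (P i)).symm y) else 0)
    split_ifs
    · exact f.nonneg i _
    · exact le_rfl
  · have h1 := f.sum_eq_one (mem_univ p)
    rw [finsum_eq_sum_of_fintype] at h1
    rw [← h1]
    refine Finset.sum_congr rfl fun i _ => ?_
    by_cases hp : p ∈ (chartAt E (P i)).source
    · rw [indicator_of_mem hp]
      show (if (chartAt E (P i)) p ∈ (chartAt E (P i)).target then
        f i ((chartAt E (P i)).symm ((chartAt E (P i)) p)) else 0) = f i p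
      rw [if_pos ((chartAt E (P i)).map_source hp), (chartAt E (P i)).left_inv hp]
    · rw [indicator_of_notMem hp]
      by_contra hne
      exact hp (hf i (subset_tsupport _ (Ne.symm hne)))

end Pool.Agent.Y274.SY
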